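import Mathlib
import Pool.Agent.BEN.StmtsB

/-!
# Squad BEN, row RPQ: the bound of `R : L² → L^(2d/(d-1))`
-/

set_option autoImplicit false

namespace Pool.Agent.BEN.H95

open Set Filter Topology MeasureTheory
open scoped InnerProductSpace ENNReal
open Pool.Agent.BE01 Pool.Agent.BEL Pool.Agent.BEF Pool.Agent.BEH Pool.Agent.BEN

noncomputable section

/-- `U` is an isometry. -/
theorem rpq_iso {d : ℕ} {Ω' : Set (En d)} {ι : VV Ω' →L[ℝ] Lp ℝ 2 (mu Ω')}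
    {R : Lp ℝ 2 (mu Ω') →L[ℝ] Lp ℝ 2 (mu Ω')} {U : Lp ℝ 2 (mu Ω') →L[ℝ] VV Ω'}
    (h1 : ∀ h, R h = ι (U h)) (h2 : ∀ h k, ⟪R h, k⟫_ℝ = ⟪h, R k⟫_ℝ)
    (h3 : Function.Injective R)
    (h4 : ∀ (h : Lp ℝ 2 (mu Ω')) (G : VV Ω'), ⟪U (R h), G⟫_ℝ = ⟪h, ι G⟫_ℝ)
    (f : Lp ℝ 2 (mu Ω')) : ‖U f‖ = ‖f‖ := by
  have hr : ∀ h, ‖U (R h)‖ = ‖R h‖ := by
    intro h
    have e : ‖U (R h)‖ ^ 2 = ‖R h‖ ^ 2 := by
      rw [← real_inner_self_eq_norm_sq, ← real_inner_self_eq_norm_sq, h4, ← h1, h2]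
    exact (sq_eq_sq₀ (norm_nonneg _) (norm_nonneg _)).1 e
  have hd : Dense (Set.range R) := by
    have h5 : ((LinearMap.range (R : Lp ℝ 2 (mu Ω') →ₗ[ℝ] Lp ℝ 2 (mu Ω')))).topologicalClosure = ⊤ := by
      rw [Submodule.topologicalClosure_eq_top_iff, Submodule.eq_bot_iff]
      intro x hx
      rw [Submodule.mem_orthogonal] at hx
      have h6 : R x = 0 := by
        have h7 := hx (R (R x)) ⟨R x, rfl⟩
        rw [h2] at h7
        exact inner_self_eq_zero.1 h7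
      apply h3
      rw [h6, map_zero]
    have h8 := Submodule.dense_iff_topologicalClosure_eq_top.2 h5
    exact h8
  have hc : IsClosed {f : Lp ℝ 2 (mu Ω') | ‖U f‖ = ‖f‖} :=
    isClosed_eq (U.continuous.norm) continuous_norm
  have hs : Set.range R ⊆ {f : Lp ℝ 2 (mu Ω') | ‖U f‖ = ‖f‖} := by
    rintro _ ⟨h, rfl⟩
    exact hr h
  have := closure_minimal hs hc (hd f)
  exact this

theorem rpq (qef : QefStmt) (sbu : SbuStmt) : RpqStmt := by
  intro d Ω hd hΩ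
  obtain ⟨C0, hC0, hS⟩ := sbu d Ω hd hΩ
  have hd2 : (2 : ℝ) ≤ d := by exact_mod_cast hd
  have hq : qe d (d - 1) = ENNReal.ofReal (2 * d / ((d - 1 : ℕ) : ℝ)) :=
    (qef d (by omega)).2.2.2.1 (d - 1) (by omega) (by omega)
  have hcast : ((d - 1 : ℕ) : ℝ) = (d : ℝ) - 1 := by
    rw [Nat.cast_sub (by omega)]
    norm_num
  rw [hcast] at hq
  have hle : 2 * (d : ℝ) / ((d : ℝ) - 1) ≤ pS d := by
    unfold pS
    rw [div_le_div_iff₀ (by linarith) (by linarith)]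
    nlinarith
  have hvol : volume Ω ≠ ∞ := hΩ.2.1.measure_lt_top.ne
  set e : ℝ := 1 / (2 * (d : ℝ) / ((d : ℝ) - 1)) - 1 / pS d with he
  have hq0 : 0 < 2 * (d : ℝ) / ((d : ℝ) - 1) := div_pos (by linarith) (by linarith)
  have he0 : 0 ≤ e := by
    have := one_div_le_one_div_of_le hq0 hle
    rw [he]
    linarith
  have hfin : (volume Ω) ^ e ≠ ∞ := ENNReal.rpow_ne_top_of_nonneg he0 hvol
  set c : ℝ := ((volume Ω) ^ e).toReal with hc
  have hc0 : 0 ≤ c := ENNReal.toReal_nonneg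
  refine ⟨C0 * c + 1, by positivity, ?_⟩
  intro Ω' hΩ' hsub ι hι R U h1 h2 h3 h4 f
  have hU := rpq_iso h1 h2 h3 h4 f
  have hb := hS Ω' hΩ' hsub ι hι (U f)
  rw [hU, ← h1] at hb
  have hm : mu Ω' univ ≤ volume Ω := by
    unfold mu
    rw [Measure.restrict_apply_univ]
    exact measure_mono hsub
  have hpq : qe d (d - 1) ≤ ENNReal.ofReal (pS d) := by
    rw [hq]
    exact ENNReal.ofReal_le_ofReal hle
  have h5 := eLpNorm_le_eLpNorm_mul_rpow_measure_univ (μ := mu Ω') hpq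
    (Lp.aestronglyMeasurable (R f))
  have h6 : 1 / (qe d (d - 1)).toReal - 1 / (ENNReal.ofReal (pS d)).toReal = e := by
    rw [hq, ENNReal.toReal_ofReal hq0.le, ENNReal.toReal_ofReal (hq0.le.trans hle)]
  rw [h6] at h5
  have h7 : (mu Ω' univ) ^ e ≤ ENNReal.ofReal c := by
    rw [hc, ENNReal.ofReal_toReal hfin]
    exact ENNReal.rpow_le_rpow hm he0
  calc eLpNorm (R f) (qe d (d - 1)) (mu Ω') ≤
      eLpNorm (R f) (ENNReal.ofReal (pS d)) (mu Ω') * (mu Ω' univ) ^ e := h5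
    _ ≤ ENNReal.ofReal (C0 * ‖f‖) * ENNReal.ofReal c := mul_le_mul' hb h7
    _ = ENNReal.ofReal (C0 * ‖f‖ * c) := (ENNReal.ofReal_mul (by positivity)).symm
    _ ≤ ENNReal.ofReal ((C0 * c + 1) * ‖f‖) := by
        apply ENNReal.ofReal_le_ofReal
        nlinarith [norm_nonneg f]

end

end Pool.Agent.BEN.H95
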