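import Mathlib
import Pool.Agent.BEN.StmtsA

/-!
# Squad BEN, row POJ: powers of jets
-/

set_option autoImplicit false

namespace Pool.Agent.BEN.H95

open Set Filter Topology MeasureTheory
open Pool.Agent.BEN

theorem poj : PojStmt := by
  intro J _ _ A n
  have hm : 0 ≤ A.nmul := zero_le_one.trans A.nmul_pos
  induction n with
  | zero =>
    refine ⟨fun ρ x y hx hy => ⟨?_, ?_⟩, fun t0 x hx => hx⟩
    · show ‖x‖ ≤ _
      simpa using hx
    · show ‖x - y‖ ≤ _
      simp
  | succ n ih =>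
    obtain ⟨h1, h2⟩ := ih
    refine ⟨fun ρ x y hx hy => ?_, fun t0 x hx => A.mul_mem t0 x _ hx (h2 t0 x hx)⟩
    have hρ : 0 ≤ ρ := (norm_nonneg x).trans hx
    obtain ⟨a1, a2⟩ := h1 ρ x y hx hy
    obtain ⟨b1, _⟩ := h1 ρ y x hy hx
    constructor
    · show ‖A.mul x (pj A n x)‖ ≤ _
      calc ‖A.mul x (pj A n x)‖ ≤ A.nmul * ‖x‖ * ‖pj A n x‖ := A.mul_le _ _
        _ ≤ A.nmul * ρ * (A.nmul ^ n * ρ ^ (n + 1)) :=
            mul_le_mul (mul_le_mul_of_nonneg_left hx hm) a1 (norm_nonneg _) (by positivity)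
        _ = A.nmul ^ (n + 1) * ρ ^ (n + 1 + 1) := by ring
    · show ‖A.mul x (pj A n x) - A.mul y (pj A n y)‖ ≤ _
      have e : A.mul x (pj A n x) - A.mul y (pj A n y) =
          A.mul x (pj A n x - pj A n y) + A.mul (x - y) (pj A n y) := by
        rw [map_sub, map_sub, ContinuousLinearMap.sub_apply]
        abel
      rw [e]
      have c1 : ‖A.mul x (pj A n x - pj A n y)‖ ≤
          A.nmul * ρ * ((n + 1) * A.nmul ^ n * ρ ^ n * ‖x - y‖) :=
        (A.mul_le _ _).trans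
          (mul_le_mul (mul_le_mul_of_nonneg_left hx hm) a2 (norm_nonneg _) (by positivity))
      have c2 : ‖A.mul (x - y) (pj A n y)‖ ≤ A.nmul * ‖x - y‖ * (A.nmul ^ n * ρ ^ (n + 1)) :=
        (A.mul_le _ _).trans (mul_le_mul_of_nonneg_left b1 (by positivity))
      refine (norm_add_le _ _).trans ((add_le_add c1 c2).trans (le_of_eq ?_))
      push_cast
      ring

end Pool.Agent.BEN.H95
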